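import Mathlib

namespace Pool.Agent.Results.MP_63f2bb_co.Heawood

section
variable {V : Type} {G : SimpleGraph V} (S : Subgroup (G ≃g G))

/-- S-invariant subspaces -/
def Inv (W : Submodule ℝ (V → ℝ)) : Prop := ∀ σ ∈ S, ∀ x ∈ W, x ∘ σ.symm ∈ W

/-- S-irreducible subspaces -/
def Irr (W : Submodule ℝ (V → ℝ)) : Prop :=
  W ≠ ⊥ ∧ Inv S W ∧ ∀ U ≤ W, Inv S U → U = ⊥ ∨ U = W
end

abbrev V := ZMod 7 × ZMod 2

instance : Fact (Nat.Prime 7) := ⟨by norm_num⟩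

def A (u v : V) : Prop := (u.2 = 0 ∧ v.2 = 1 ∧ (v.1 - u.1) ^ 3 = 1) ∨
  (v.2 = 0 ∧ u.2 = 1 ∧ (u.1 - v.1) ^ 3 = 1)

instance : DecidableRel A := fun _ _ => inferInstanceAs (Decidable (_ ∨ _))

def G : SimpleGraph V := ⟨A, ⟨fun _ _ h => h.symm⟩, ⟨by decide⟩⟩

instance : DecidableRel G.Adj := inferInstanceAs (DecidableRel A)

def m (a b : ZMod 7) (u : V) : V := (a * u.1 + b, u.2 + if a ^ 3 = 1 then 0 else 1)

lemma hm : ∀ a b, a ≠ 0 → (∀ u v, m a b u = m a b v → u = v) ∧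
    ∀ u v, A (m a b u) (m a b v) ↔ A u v := by decide +kernel

noncomputable def φ (a b : ZMod 7) (h : a ≠ 0) : G ≃g G :=
  ⟨Equiv.ofBijective (m a b) (Finite.injective_iff_bijective.mp (hm a b h).1), (hm a b h).2 _ _⟩

def S : Subgroup (G ≃g G) where
  carrier := {σ | ∃ a b, a ≠ 0 ∧ ∀ u, (σ u).1 = a * u.1 + b}
  one_mem' := ⟨1, 0, one_ne_zero, fun u => by simp⟩
  mul_mem' := by
    rintro σ τ ⟨a, b, h, e⟩ ⟨c, d, h', e'⟩
    exact ⟨a * c, a * d + b, mul_ne_zero h h', fun u => (e (τ u)).trans (by rw [e']; ring)⟩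
  inv_mem' := by
    rintro σ ⟨a, b, h, e⟩
    refine ⟨a⁻¹, -(a⁻¹ * b), inv_ne_zero h, fun u => ?_⟩
    have := e (σ⁻¹ u)
    rw [show σ (σ⁻¹ u) = u from σ.apply_symm_apply u] at this
    rw [this]; field_simp; ring

def W : Submodule ℝ (V → ℝ) where
  carrier := {x | ∃ f : ZMod 7 → ℝ, ∑ t, f t = 0 ∧ x = f ∘ Prod.fst}
  zero_mem' := ⟨0, by simp, rfl⟩
  add_mem' := by
    rintro _ _ ⟨f, h, rfl⟩ ⟨g, h', rfl⟩
    exact ⟨f + g, by simp [Finset.sum_add_distrib, h, h'], rfl⟩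
  smul_mem' := by
    rintro c _ ⟨f, h, rfl⟩
    exact ⟨c • f, by simp [← Finset.mul_sum, h], rfl⟩

lemma arcs : ∀ u v, A u v → ∀ u' v', A u' v' → ∃ a b, a ≠ 0 ∧ m a b u = u' ∧ m a b v = v' := by
  decide +kernel

lemma sumaff (f : ZMod 7 → ℝ) (a b : ZMod 7) (h : a ≠ 0) : ∑ t, f (a * t + b) = ∑ t, f t :=
  Equiv.sum_comp ((Equiv.mulLeft₀ a h).trans (Equiv.addRight b)) f

def δ (b : ZMod 7) : V → ℝ := fun u => (if u.1 = b then 7 else 0) - 1

lemma δW (b : ZMod 7) : δ b ∈ W := ⟨fun t => (if t = b then 7 else 0) - 1, by simp, rfl⟩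

/-- An irreducible subspace of an arc-transitive group lying in no eigenspace. -/
theorem result : ∃ (G : SimpleGraph (ZMod 7 × ZMod 2)) (_ : DecidableRel G.Adj)
    (S : Subgroup (G ≃g G)) (W : Submodule ℝ (ZMod 7 × ZMod 2 → ℝ)), G.Connected ∧
    (∀ u v u' v', G.Adj u v → G.Adj u' v' → ∃ σ ∈ S, σ u = u' ∧ σ v = v') ∧ Irr S W ∧
    ∀ c : ℝ, ¬ ∀ x ∈ W, (G.adjMatrix ℝ).mulVec x = c • x := by
  refine ⟨G, inferInstance, S, W, by decide +kernel, fun u v u' v' h h' => ?_,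
    ⟨fun h => ?_, ?_, fun U hU hI => ?_⟩, fun c h => ?_⟩
  · obtain ⟨a, b, h0, h1⟩ := arcs u v h u' v' h'
    exact ⟨φ a b h0, ⟨a, b, h0, fun _ => rfl⟩, h1⟩
  · have := congrFun ((Submodule.mem_bot ℝ).mp (h ▸ δW 0 : δ 0 ∈ ⊥)) 0
    norm_num [δ] at this
  · rintro σ hσ _ ⟨f, hf, rfl⟩
    obtain ⟨a, b, h, e⟩ := S.inv_mem hσ
    exact ⟨fun t => f (a * t + b), (sumaff f a b h).trans hf, funext fun u => congrArg f (e u)⟩
  · refine or_iff_not_imp_left.mpr fun h0 => hU.antisymm ?_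
    obtain ⟨x, hx, x0⟩ := (Submodule.ne_bot_iff U).mp h0
    obtain ⟨f, hf, rfl⟩ := hU hx
    obtain ⟨u, hu⟩ := Function.ne_iff.mp x0
    have h1 : ∀ a b c : ZMod 7, (fun v : V => if a = 0 then 0 else f (a * (v.1 - b) + c)) ∈ U :=
      fun a b c => by
        split_ifs with h
        · exact U.zero_mem
        · convert hI (φ a (c - a * b) h)⁻¹ (S.inv_mem ⟨a, _, h, fun _ => rfl⟩) _ hx using 2 with v
          exact congrArg f (show _ = a * v.1 + (c - a * b) by ring)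
    have h2 : ∀ b, δ b ∈ U := fun b => by
      convert U.smul_mem (f u.1)⁻¹ (U.sum_mem fun a (_ : a ∈ Finset.univ) => h1 a b u.1) using 1
      ext v
      have hu' : f u.1 ≠ 0 := hu
      have e : ∀ a : ZMod 7, (if a = 0 then 0 else f (a * (v.1 - b) + u.1)) =
          f ((v.1 - b) * a + u.1) - if a = 0 then f u.1 else 0 := fun a => by
        split_ifs with h <;> simp [h, mul_comm]
      simp only [δ, Pi.smul_apply, Finset.sum_apply, e, Finset.sum_sub_distrib, smul_eq_mul]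
      split_ifs with h
      · simp [h]; field_simp
      · rw [sumaff f _ _ (sub_ne_zero.mpr h), hf]; simp [hu']
    rintro _ ⟨g, hg, rfl⟩
    convert U.sum_mem fun b (_ : b ∈ Finset.univ) => U.smul_mem (g b / 7) (h2 b) using 1
    ext v
    simp [δ, mul_sub, ← Finset.sum_div, hg]
  · have h1 := congrFun (h _ (δW 0)) (1, 0)
    have h2 := congrFun (h _ (δW 0)) (1, 1)
    rw [SimpleGraph.adjMatrix_mulVec_apply] at h1 h2
    rw [show G.neighborFinset (1, 0) = {(2, 1), (3, 1), (5, 1)} by decide,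
      Finset.sum_insert (by decide), Finset.sum_pair (by decide)] at h1
    rw [show G.neighborFinset (1, 1) = {(0, 0), (6, 0), (4, 0)} by decide,
      Finset.sum_insert (by decide), Finset.sum_pair (by decide)] at h2
    simp +decide [δ] at h1 h2
    linarith

end Pool.Agent.Results.MP_63f2bb_co.Heawood
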